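import Mathlib

/-!
# MP_b358a5_co, Q1: bounded-degree polynomial sets are separated by partition regularity

For `1 ≤ i < j` the pattern `{x + z, u v, x ^ i z s + t}` appears in `P_i`, is partition regular
over `P_j` and is not partition regular over `P_i`.
-/

namespace Pool.Agent.Results.MP_b358a5_co.Separates

open MvPolynomial

/-- The set `P_d` of nonzero polynomials in countably many indeterminates, with natural
coefficients and zero constant term, of degree at most `d` in each indeterminate. -/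
def P (d : ℕ) : Set (MvPolynomial ℕ ℕ) :=
  {p | p ≠ 0 ∧ coeff 0 p = 0 ∧ ∀ n, degreeOf n p ≤ d}

/-- A good polynomial in the formal variables `Fin m`: natural coefficients and zero constant
term. -/
def Good {m : ℕ} (f : MvPolynomial (Fin m) ℕ) : Prop := coeff 0 f = 0

/-- `a` is a copy of the pattern `F` in `S`. -/
def IsCopy {m k : ℕ} (F : Fin k → MvPolynomial (Fin m) ℕ) (S : Set (MvPolynomial ℕ ℕ))
    (a : Fin m → MvPolynomial ℕ ℕ) : Prop :=
  (∀ t, a t ∈ S) ∧ ∀ l, aeval a (F l) ∈ S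

/-- `F` appears in `S`. -/
def Appears {m k : ℕ} (F : Fin k → MvPolynomial (Fin m) ℕ) (S : Set (MvPolynomial ℕ ℕ)) : Prop :=
  ∃ a, IsCopy F S a

/-- `F` is partition regular over `S`: every colouring of `S` with finitely many colours has a
copy of `F` in `S` all of whose values have the same colour. -/
def PartitionRegular {m k : ℕ} (F : Fin k → MvPolynomial (Fin m) ℕ)
    (S : Set (MvPolynomial ℕ ℕ)) : Prop :=
  ∀ (r : ℕ) (χ : S → Fin r), ∃ a, ∃ h : IsCopy F S a, ∃ c : Fin r,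
    ∀ l, χ ⟨aeval a (F l), h.2 l⟩ = c

/-- As `PartitionRegular`, but the values of the copy are moreover required to be pairwise
distinct. -/
def DistinctRegular {m k : ℕ} (F : Fin k → MvPolynomial (Fin m) ℕ)
    (S : Set (MvPolynomial ℕ ℕ)) : Prop :=
  ∀ (r : ℕ) (χ : S → Fin r), ∃ a, ∃ h : IsCopy F S a,
    Function.Injective (fun l => aeval a (F l)) ∧ ∃ c : Fin r,
      ∀ l, χ ⟨aeval a (F l), h.2 l⟩ = c

/-! ### supports of polynomials with natural coefficients -/

lemma support_add_left {σ : Type*} {p q : MvPolynomial σ ℕ} {α : σ →₀ ℕ} (h : α ∈ p.support) :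
    α ∈ (p + q).support := by
  rw [mem_support_iff] at h ⊢
  rw [coeff_add]
  omega

lemma support_add_right {σ : Type*} {p q : MvPolynomial σ ℕ} {α : σ →₀ ℕ} (h : α ∈ q.support) :
    α ∈ (p + q).support := by
  rw [mem_support_iff] at h ⊢
  rw [coeff_add]
  omega

lemma support_add_or {σ : Type*} {p q : MvPolynomial σ ℕ} {α : σ →₀ ℕ}
    (h : α ∈ (p + q).support) : α ∈ p.support ∨ α ∈ q.support := by
  rw [mem_support_iff] at h ⊢
  rw [mem_support_iff]
  rw [coeff_add] at h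
  omega

lemma support_mul_mem {p q : MvPolynomial ℕ ℕ} {α β : ℕ →₀ ℕ} (hα : α ∈ p.support)
    (hβ : β ∈ q.support) : α + β ∈ (p * q).support := by
  rw [mem_support_iff] at *
  rw [coeff_mul]
  have h1 : coeff α p * coeff β q ≤
      ∑ x ∈ Finset.HasAntidiagonal.antidiagonal (α + β), coeff x.1 p * coeff x.2 q :=
    Finset.single_le_sum (f := fun x : (ℕ →₀ ℕ) × (ℕ →₀ ℕ) => coeff x.1 p * coeff x.2 q)
      (a := (α, β)) (fun _ _ => Nat.zero_le _) (Finset.HasAntidiagonal.mem_antidiagonal.mpr rfl)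
  have h2 : 0 < coeff α p * coeff β q := Nat.mul_pos (by omega) (by omega)
  omega

lemma support_pow_mem {p : MvPolynomial ℕ ℕ} {α : ℕ →₀ ℕ} (hα : α ∈ p.support) (i : ℕ) :
    i • α ∈ (p ^ i).support := by
  induction i with
  | zero => simp
  | succ i ih =>
    rw [pow_succ, succ_nsmul]
    exact support_mul_mem ih hα

lemma exists_mem_support {p : MvPolynomial ℕ ℕ} (hp : p ≠ 0) : ∃ α, α ∈ p.support := by
  obtain ⟨α, hα⟩ := Finset.nonempty_iff_ne_empty.mpr (fun h => hp (support_eq_empty.mp h))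
  exact ⟨α, hα⟩

lemma mul_ne_zero' {p q : MvPolynomial ℕ ℕ} (hp : p ≠ 0) (hq : q ≠ 0) : p * q ≠ 0 := by
  obtain ⟨α, hα⟩ := exists_mem_support hp
  obtain ⟨β, hβ⟩ := exists_mem_support hq
  intro h
  have := support_mul_mem hα hβ
  rw [h] at this
  simp at this

lemma pow_ne_zero' {p : MvPolynomial ℕ ℕ} (hp : p ≠ 0) (i : ℕ) : p ^ i ≠ 0 := by
  obtain ⟨α, hα⟩ := exists_mem_support hp
  intro h
  have := support_pow_mem hα i
  rw [h] at this
  simp at this

lemma add_ne_zero_left {p q : MvPolynomial ℕ ℕ} (hp : p ≠ 0) : p + q ≠ 0 := by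
  obtain ⟨α, hα⟩ := exists_mem_support hp
  intro h
  have := support_add_left (q := q) hα
  rw [h] at this
  simp at this

lemma le_degreeOf {p : MvPolynomial ℕ ℕ} {α : ℕ →₀ ℕ} (hα : α ∈ p.support) (n : ℕ) :
    α n ≤ degreeOf n p := by
  rw [degreeOf_eq_sup]
  exact Finset.le_sup (f := fun m : ℕ →₀ ℕ => m n) hα

lemma degreeOf_le {p : MvPolynomial ℕ ℕ} {n d : ℕ} (h : ∀ α ∈ p.support, α n ≤ d) :
    degreeOf n p ≤ d := by
  rw [degreeOf_eq_sup]
  exact Finset.sup_le h

lemma coeff_zero_mul (p q : MvPolynomial ℕ ℕ) : coeff 0 (p * q) = coeff 0 p * coeff 0 q := by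
  simp only [← constantCoeff_eq, map_mul]

/-! ### sums of polynomials with disjoint supports are irreducible -/

lemma irred {x z g h : MvPolynomial ℕ ℕ} (hx : x ≠ 0) (hz : z ≠ 0)
    (hdis : ∀ α ∈ x.support, ∀ β ∈ z.support, ∀ n, ¬ (1 ≤ α n ∧ 1 ≤ β n))
    (hg : coeff 0 g = 0) (hh : coeff 0 h = 0) : x + z ≠ g * h := by
  intro heq
  obtain ⟨α, hα⟩ := exists_mem_support hx
  obtain ⟨β, hβ⟩ := exists_mem_support hz
  have h1 : α ∈ (g * h).support := by rw [← heq]; exact support_add_left hα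
  have h2 : β ∈ (g * h).support := by rw [← heq]; exact support_add_right hβ
  obtain ⟨μ1, hμ1, ν1, hν1, e1⟩ := Finset.mem_add.mp (support_mul g h h1)
  obtain ⟨μ2, hμ2, ν2, hν2, e2⟩ := Finset.mem_add.mp (support_mul g h h2)
  have h3 : μ1 + ν2 ∈ (g * h).support := support_mul_mem hμ1 hν2
  rw [← heq] at h3
  have key : ∀ (f : MvPolynomial ℕ ℕ) (ν : ℕ →₀ ℕ), coeff 0 f = 0 → ν ∈ f.support →
      ∃ n, 1 ≤ ν n := by
    intro f ν hf hν
    have : ν ≠ 0 := by
      rintro rfl
      rw [mem_support_iff] at hν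
      exact hν hf
    obtain ⟨n, hn⟩ := Finsupp.ne_iff.mp this
    exact ⟨n, by simpa [Nat.one_le_iff_ne_zero] using hn⟩
  rcases support_add_or h3 with h4 | h4
  · obtain ⟨n, hn⟩ := key h ν2 hh hν2
    refine hdis _ h4 _ hβ n ⟨?_, ?_⟩
    · rw [Finsupp.add_apply]; omega
    · rw [← e2, Finsupp.add_apply]; omega
  · obtain ⟨n, hn⟩ := key g μ1 hg hμ1
    refine hdis _ hα _ h4 n ⟨?_, ?_⟩
    · rw [← e1, Finsupp.add_apply]; omega
    · rw [Finsupp.add_apply]; omega

/-! ### the pattern -/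

/-- the pattern `{x + z, u v, x ^ i z s + t}` -/
noncomputable def pat (i : ℕ) : Fin 3 → MvPolynomial (Fin 6) ℕ :=
  ![X 0 + X 1, X 2 * X 3, X 0 ^ i * X 1 * X 4 + X 5]

lemma pat_good (i : ℕ) (l : Fin 3) : Good (pat i l) := by
  unfold Good pat
  fin_cases l
  · simp
  · simp [← constantCoeff_eq]
  · simp [← constantCoeff_eq]

lemma aeval_pat (i : ℕ) (a : Fin 6 → MvPolynomial ℕ ℕ) :
    aeval a (pat i 0) = a 0 + a 1 ∧ aeval a (pat i 1) = a 2 * a 3 ∧
    aeval a (pat i 2) = a 0 ^ i * a 1 * a 4 + a 5 := by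
  refine ⟨?_, ?_, ?_⟩ <;> simp [pat]

lemma X_mem {d : ℕ} (hd : 1 ≤ d) (n : ℕ) : (X n : MvPolynomial ℕ ℕ) ∈ P d := by
  refine ⟨X_ne_zero n, by simp, fun k => ?_⟩
  rw [degreeOf_X]
  split_ifs <;> omega

lemma P_mono {d e : ℕ} (hde : d ≤ e) : P d ⊆ P e := fun _ hp =>
  ⟨hp.1, hp.2.1, fun n => (hp.2.2 n).trans hde⟩

/-- the pattern appears in `P_i` -/
lemma appears {i : ℕ} (hi : 1 ≤ i) : Appears (pat i) (P i) := by
  refine ⟨![X 0, X 1, X 2, X 3, X 4, X 5], ?_, ?_⟩
  · intro t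
    fin_cases t <;> exact X_mem hi _
  · obtain ⟨h0, h1, h2⟩ := aeval_pat i ![X 0, X 1, X 2, X 3, X 4, X 5]
    intro l
    fin_cases l
    · change aeval _ (pat i 0) ∈ P i
      rw [h0]
      change (X 0 + X 1 : MvPolynomial ℕ ℕ) ∈ P i
      refine ⟨add_ne_zero_left (X_ne_zero _), by simp, fun n => ?_⟩
      refine (degreeOf_add_le n _ _).trans ?_
      rw [degreeOf_X, degreeOf_X]
      split_ifs <;> omega
    · change aeval _ (pat i 1) ∈ P i
      rw [h1]
      change (X 2 * X 3 : MvPolynomial ℕ ℕ) ∈ P i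
      refine ⟨mul_ne_zero' (X_ne_zero _) (X_ne_zero _), by simp [← constantCoeff_eq], fun n => ?_⟩
      refine (degreeOf_mul_le n _ _).trans ?_
      rw [degreeOf_X, degreeOf_X]
      split_ifs <;> omega
    · change aeval _ (pat i 2) ∈ P i
      rw [h2]
      change (X 0 ^ i * X 1 * X 4 + X 5 : MvPolynomial ℕ ℕ) ∈ P i
      refine ⟨add_ne_zero_left (mul_ne_zero' (mul_ne_zero' (pow_ne_zero' (X_ne_zero _) i)
        (X_ne_zero _)) (X_ne_zero _)), by simp [← constantCoeff_eq], fun n => ?_⟩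
      refine (degreeOf_add_le n _ _).trans ?_
      have h3 := degreeOf_mul_le n (X 0 ^ i * X 1 : MvPolynomial ℕ ℕ) (X 4)
      have h4 := degreeOf_mul_le n (X 0 ^ i : MvPolynomial ℕ ℕ) (X 1)
      have h5 := degreeOf_pow_le n (X 0 : MvPolynomial ℕ ℕ) i
      rw [degreeOf_X] at h3 h4 h5 ⊢
      refine max_le ?_ ?_
      · split_ifs at h3 h4 h5 <;> omega
      · split_ifs <;> omega

/-- the pattern is not partition regular over `P_i` -/
lemma not_regular {i : ℕ} : ¬ PartitionRegular (pat i) (P i) := by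
  classical
  intro hreg
  obtain ⟨a, ⟨ha, hF⟩, c, hc⟩ := hreg 2 (fun p =>
    if ∃ g h : MvPolynomial ℕ ℕ, coeff 0 g = 0 ∧ coeff 0 h = 0 ∧ (p : MvPolynomial ℕ ℕ) = g * h
    then 0 else 1)
  obtain ⟨h0, h1, h2⟩ := aeval_pat i a
  have c0 := hc 0
  have c1 := hc 1
  have hF2 := hF 2
  simp only [h0, h1] at c0 c1
  rw [h2] at hF2
  rw [if_pos ⟨a 2, a 3, (ha 2).2.1, (ha 3).2.1, rfl⟩] at c1
  rw [← c1] at c0
  have hred : ∃ g h : MvPolynomial ℕ ℕ, coeff 0 g = 0 ∧ coeff 0 h = 0 ∧ a 0 + a 1 = g * h := by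
    by_contra hcon
    rw [if_neg hcon] at c0
    exact absurd c0 (by decide)
  obtain ⟨g, h, hg, hh, heq⟩ := hred
  refine irred (ha 0).1 (ha 1).1 ?_ hg hh heq
  rintro α hα β hβ n ⟨h3, h4⟩
  obtain ⟨γ, hγ⟩ := exists_mem_support (ha 4).1
  have h5 : i • α + β + γ ∈ (a 0 ^ i * a 1 * a 4 + a 5).support :=
    support_add_left (support_mul_mem (support_mul_mem (support_pow_mem hα i) hβ) hγ)
  have h6 := (le_degreeOf h5 n).trans (hF2.2.2 n)
  rw [Finsupp.add_apply, Finsupp.add_apply, Finsupp.smul_apply, smul_eq_mul] at h6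
  have h7 : i ≤ i * α n := Nat.le_mul_of_pos_right _ h3
  omega

/-! ### the sequence -/

/-- the products `b_n c_n` of two fresh variables -/
noncomputable def x (n : ℕ) : MvPolynomial ℕ ℕ := X (2 * n) * X (2 * n + 1)

/-- the companion sequence -/
noncomputable def z (i : ℕ) : ℕ → MvPolynomial ℕ ℕ
  | 0 => X 0
  | n + 1 => x n ^ i * z i n + x n ^ i * X (2 * n + 3) + X (2 * n + 2) * z i n

lemma z_ne (i n : ℕ) : z i n ≠ 0 := by
  induction n with
  | zero => exact X_ne_zero _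
  | succ n ih =>
    rw [z]
    apply add_ne_zero_left
    apply add_ne_zero_left
    exact mul_ne_zero' (pow_ne_zero' (mul_ne_zero' (X_ne_zero _) (X_ne_zero _)) i) ih

lemma x_ne (n : ℕ) : x n ≠ 0 := mul_ne_zero' (X_ne_zero _) (X_ne_zero _)

lemma x_coeff (n : ℕ) : coeff 0 (x n) = 0 := by
  unfold x
  simp [← constantCoeff_eq]

lemma z_coeff (i n : ℕ) : coeff 0 (z i n) = 0 := by
  induction n with
  | zero => simp [z]
  | succ n ih =>
    rw [z, coeff_add, coeff_add, coeff_zero_mul, coeff_zero_mul, coeff_zero_mul, ih]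
    simp

lemma x_deg (n v : ℕ) : degreeOf v (x n) ≤ if v = 2 * n ∨ v = 2 * n + 1 then 1 else 0 := by
  unfold x
  refine (degreeOf_mul_le v _ _).trans ?_
  rw [degreeOf_X, degreeOf_X]
  split_ifs <;> omega

lemma z_deg (i n v : ℕ) : degreeOf v (z i n) ≤
    if v < 2 * n then i + 1 else if v < 2 * n + 2 then 1 else 0 := by
  induction n with
  | zero =>
    rw [z, degreeOf_X]
    split_ifs <;> omega
  | succ n ih =>
    rw [z]
    have h1 := degreeOf_mul_le v (x n ^ i) (z i n)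
    have h2 := degreeOf_mul_le v (x n ^ i) (X (2 * n + 3))
    have h3 := degreeOf_mul_le v (X (2 * n + 2)) (z i n)
    have h4 := degreeOf_pow_le v (x n) i
    have h5 := x_deg n v
    have h6 : i * degreeOf v (x n) ≤ if v = 2 * n ∨ v = 2 * n + 1 then i else 0 := by
      split_ifs at h5 ⊢ with h
      · calc i * degreeOf v (x n) ≤ i * 1 := Nat.mul_le_mul_left _ h5
          _ = i := by ring
      · have : degreeOf v (x n) = 0 := by omega
        rw [this]; simp
    rw [degreeOf_X] at h2 h3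
    refine (degreeOf_add_le v _ _).trans (max_le ((degreeOf_add_le v _ _).trans (max_le ?_ ?_)) ?_)
    · split_ifs at h6 ih ⊢ <;> omega
    · split_ifs at h6 h2 ⊢ <;> omega
    · split_ifs at ih h3 ⊢ <;> omega

lemma x_mem {d : ℕ} (hd : 1 ≤ d) (n : ℕ) : x n ∈ P d := by
  refine ⟨x_ne n, x_coeff n, fun v => (x_deg n v).trans ?_⟩
  split_ifs <;> omega

lemma z_mem (i n : ℕ) : z i n ∈ P (i + 1) := by
  refine ⟨z_ne i n, z_coeff i n, fun v => (z_deg i n v).trans ?_⟩
  split_ifs <;> omega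

/-- members of `P` are closed downwards for addition, and under division -/
lemma mem_of_add {d : ℕ} {p t w : MvPolynomial ℕ ℕ} (hw : w ∈ P d) (h : p + t = w) (ht : t ≠ 0) :
    t ∈ P d := by
  refine ⟨ht, ?_, fun n => degreeOf_le fun α hα => ?_⟩
  · have := hw.2.1
    rw [← h, coeff_add] at this
    omega
  · exact (le_degreeOf (by rw [← h]; exact support_add_right hα) n).trans (hw.2.2 n)

lemma mem_of_mul {d : ℕ} {p s t w : MvPolynomial ℕ ℕ} (hw : w ∈ P d) (h : p * s + t = w)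
    (hp : p ≠ 0) (hs : s ≠ 0) (hs0 : coeff 0 s = 0) : s ∈ P d := by
  refine ⟨hs, hs0, fun n => degreeOf_le fun α hα => ?_⟩
  obtain ⟨β, hβ⟩ := exists_mem_support hp
  have h1 : β + α ∈ w.support := by
    rw [← h]; exact support_add_left (support_mul_mem hβ hα)
  have h2 := (le_degreeOf h1 n).trans (hw.2.2 n)
  rw [Finsupp.add_apply] at h2
  omega

/-- the sums `x n + z n` are reducible -/
lemma R_succ (i n : ℕ) : x (n + 1) + z i (n + 1) =
    (x n ^ i + X (2 * n + 2)) * (z i n + X (2 * n + 3)) := by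
  rw [z]
  have : x (n + 1) = X (2 * n + 2) * X (2 * n + 3) := by
    unfold x
    congr 2
  rw [this]
  ring

lemma exists_st (i n k : ℕ) : ∃ s t : MvPolynomial ℕ ℕ, s ≠ 0 ∧ coeff 0 s = 0 ∧
    x n ^ i * z i n * s + t = z i (n + 2 + k) := by
  induction k with
  | zero =>
    refine ⟨X (2 * (n + 1) + 2), ?_, X_ne_zero _, by simp, ?_⟩
    · exact x (n + 1) ^ i * z i (n + 1) + x (n + 1) ^ i * X (2 * (n + 1) + 3) +
        X (2 * (n + 1) + 2) * (x n ^ i * X (2 * n + 3) + X (2 * n + 2) * z i n)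
    · rw [show z i (n + 2 + 0) = x (n + 1) ^ i * z i (n + 1) +
        x (n + 1) ^ i * X (2 * (n + 1) + 3) + X (2 * (n + 1) + 2) *
        (x n ^ i * z i n + x n ^ i * X (2 * n + 3) + X (2 * n + 2) * z i n) from rfl]
      ring
  | succ k ih =>
    obtain ⟨s, t, h1, h2, h3⟩ := ih
    refine ⟨X (2 * (n + 2 + k) + 2) * s, x (n + 2 + k) ^ i * z i (n + 2 + k) +
      x (n + 2 + k) ^ i * X (2 * (n + 2 + k) + 3) + X (2 * (n + 2 + k) + 2) * t,
      mul_ne_zero' (X_ne_zero _) h1, ?_, ?_⟩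
    · rw [coeff_zero_mul, h2, mul_zero]
    · change _ = z i (n + 2 + k + 1)
      conv_rhs => rw [z]
      conv_rhs => rw [← h3]
      rw [← h3]
      ring

lemma R_mem (i n : ℕ) : x n + z i n ∈ P (i + 1) := by
  refine ⟨add_ne_zero_left (x_ne n), ?_, fun v => ?_⟩
  · rw [coeff_add, x_coeff, z_coeff]
  · exact (degreeOf_add_le v _ _).trans (max_le ((x_mem (by omega) n).2.2 v) ((z_mem i n).2.2 v))

lemma R_inj (i : ℕ) {m n : ℕ} (h : m < n) : x m + z i m ≠ x n + z i n := by
  intro heq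
  have h1 : degreeOf (2 * n) (x m + z i m) = 0 := by
    have h2 := degreeOf_add_le (2 * n) (x m) (z i m)
    have h3 := x_deg m (2 * n)
    have h4 := z_deg i m (2 * n)
    rw [if_neg (by omega)] at h3
    rw [if_neg (by omega), if_neg (by omega)] at h4
    omega
  have h2 : (Finsupp.single (2 * n) 1 + Finsupp.single (2 * n + 1) 1 : ℕ →₀ ℕ) ∈
      (x n + z i n).support := by
    apply support_add_left
    unfold x
    apply support_mul_mem
    · rw [support_X]; simp
    · rw [support_X]; simp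
  have h3 := le_degreeOf h2 (2 * n)
  rw [← heq, h1] at h3
  simp at h3

/-- the pattern is partition regular over `P_{i+1}`, and so over every `P_j`, `j > i`, even with
pairwise distinct values -/
lemma regular {i j : ℕ} (hi : 1 ≤ i) (hij : i < j) : DistinctRegular (pat i) (P j) := by
  intro r χ
  have hP : P (i + 1) ⊆ P j := P_mono (by omega)
  have hR : ∀ n, x n + z i n ∈ P j := fun n => hP (R_mem i n)
  -- three indices of one colour, with gaps at least two
  obtain ⟨n, n', n'', hlt, hlt2, heq, heq2⟩ : ∃ n n' n'' : ℕ, n < n' ∧ n' < n'' ∧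
      χ ⟨x (2 * n) + z i (2 * n), hR _⟩ = χ ⟨x (2 * n') + z i (2 * n'), hR _⟩ ∧
      χ ⟨x (2 * n'') + z i (2 * n''), hR _⟩ = χ ⟨x (2 * n') + z i (2 * n'), hR _⟩ := by
    obtain ⟨c, hc⟩ := Finite.exists_infinite_fiber
      (fun n : ℕ => χ ⟨x (2 * n) + z i (2 * n), hR _⟩)
    rw [Set.infinite_coe_iff] at hc
    obtain ⟨n, hn⟩ := hc.nonempty
    obtain ⟨n', hn', hlt⟩ := hc.exists_gt n
    obtain ⟨n'', hn'', hlt2⟩ := hc.exists_gt n'
    refine ⟨n, n', n'', hlt, hlt2, ?_, ?_⟩
    · exact hn.trans hn'.symm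
    · exact hn''.trans hn'.symm
  obtain ⟨k, hk⟩ : ∃ k, 2 * n' = 2 * n + 2 + k := ⟨2 * n' - (2 * n + 2), by omega⟩
  obtain ⟨l, hl⟩ : ∃ l, 2 * n'' = l + 1 := ⟨2 * n'' - 1, by omega⟩
  obtain ⟨s, t, hs, hs0, hst⟩ := exists_st i (2 * n) k
  rw [← hk] at hst
  have hpne : x (2 * n) ^ i * z i (2 * n) ≠ 0 := mul_ne_zero' (pow_ne_zero' (x_ne _) i) (z_ne _ _)
  have hst2 : x (2 * n) ^ i * z i (2 * n) * s + (x (2 * n') + t) = x (2 * n') + z i (2 * n') := by
    rw [← hst]; ring
  have hsP : s ∈ P (i + 1) := mem_of_mul (R_mem i (2 * n')) hst2 hpne hs hs0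
  have htP : x (2 * n') + t ∈ P (i + 1) :=
    mem_of_add (R_mem i (2 * n')) hst2 (add_ne_zero_left (x_ne _))
  -- the factors
  have hfac := R_succ i l
  rw [← hl] at hfac
  have hu : x l ^ i + X (2 * l + 2) ∈ P (i + 1) := by
    refine ⟨?_, ?_, fun v => ?_⟩
    · rw [add_comm]
      exact add_ne_zero_left (X_ne_zero _)
    · obtain ⟨i', rfl⟩ : ∃ i', i = i' + 1 := ⟨i - 1, by omega⟩
      rw [coeff_add, pow_succ, coeff_zero_mul, x_coeff]
      simp
    · refine (degreeOf_add_le v _ _).trans (max_le ?_ ?_)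
      · refine (degreeOf_pow_le v _ _).trans ?_
        have h5 := x_deg l v
        have h6 : degreeOf v (x l) ≤ 1 := by
          split_ifs at h5 <;> omega
        calc i * degreeOf v (x l) ≤ i * 1 := Nat.mul_le_mul_left _ h6
          _ ≤ i + 1 := by omega
      · rw [degreeOf_X]
        split_ifs <;> omega
  have hv : z i l + X (2 * l + 3) ∈ P (i + 1) := by
    refine ⟨add_ne_zero_left (z_ne _ _), ?_, fun v => ?_⟩
    · rw [coeff_add, z_coeff]; simp
    · refine (degreeOf_add_le v _ _).trans (max_le ((z_mem i l).2.2 v) ?_)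
      rw [degreeOf_X]
      split_ifs <;> omega
  let a : Fin 6 → MvPolynomial ℕ ℕ := ![x (2 * n), z i (2 * n), x l ^ i + X (2 * l + 2),
    z i l + X (2 * l + 3), s, x (2 * n') + t]
  obtain ⟨h0, h1, h2⟩ := aeval_pat i a
  have h0' : aeval a (pat i 0) = x (2 * n) + z i (2 * n) := h0
  have h1' : aeval a (pat i 1) = x (2 * n'') + z i (2 * n'') := h1.trans hfac.symm
  have h2' : aeval a (pat i 2) = x (2 * n') + z i (2 * n') := h2.trans hst2
  have hcopy : IsCopy (pat i) (P j) a := by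
    refine ⟨?_, ?_⟩
    · intro t'
      fin_cases t'
      · exact x_mem (by omega) _
      · exact hP (z_mem _ _)
      · exact hP hu
      · exact hP hv
      · exact hP hsP
      · exact hP htP
    · intro l'
      fin_cases l'
      · change aeval a (pat i 0) ∈ P j
        rw [h0']; exact hR _
      · change aeval a (pat i 1) ∈ P j
        rw [h1']; exact hR _
      · change aeval a (pat i 2) ∈ P j
        rw [h2']; exact hR _
  refine ⟨a, hcopy, ?_, χ ⟨x (2 * n') + z i (2 * n'), hR _⟩, ?_⟩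
  · have n1 : aeval a (pat i 0) ≠ aeval a (pat i 1) := by
      rw [h0', h1']; exact R_inj i (by omega)
    have n2 : aeval a (pat i 0) ≠ aeval a (pat i 2) := by
      rw [h0', h2']; exact R_inj i (by omega)
    have n3 : aeval a (pat i 2) ≠ aeval a (pat i 1) := by
      rw [h1', h2']; exact R_inj i (by omega)
    intro l1 l2 h
    fin_cases l1 <;> fin_cases l2
    · rfl
    · exact absurd h n1
    · exact absurd h n2
    · exact absurd h.symm n1
    · rfl
    · exact absurd h.symm n3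
    · exact absurd h.symm n2
    · exact absurd h n3
    · rfl
  · intro l'
    fin_cases l'
    · change χ ⟨aeval a (pat i 0), _⟩ = _
      simp only [h0']
      exact heq
    · change χ ⟨aeval a (pat i 1), _⟩ = _
      simp only [h1']
      exact heq2
    · change χ ⟨aeval a (pat i 2), _⟩ = _
      simp only [h2']

/-- **Q1**: for all `1 ≤ i < j` some pattern appears in `P_i`, is partition regular over `P_j`
(even with pairwise distinct values) and is not partition regular over `P_i`. -/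
theorem result (i j : ℕ) (hi : 1 ≤ i) (hij : i < j) :
    ∃ (m k : ℕ) (F : Fin k → MvPolynomial (Fin m) ℕ), (∀ l, Good (F l)) ∧
      Appears F (P i) ∧ (PartitionRegular F (P j) ∧ DistinctRegular F (P j)) ∧
      ¬ PartitionRegular F (P i) := by
  have hreg := regular hi hij
  refine ⟨6, 3, pat i, pat_good i, appears hi, ⟨fun r χ => ?_, hreg⟩, not_regular⟩
  obtain ⟨a, h, _, h2⟩ := hreg r χ
  exact ⟨a, h, h2⟩

end Pool.Agent.Results.MP_b358a5_co.Separates
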